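import Pool.Agent.K.MP_1bf4cb_ag.C1

namespace Pool.Agent.Results.MP_1bf4cb_ag.DeligneLusztig

open Pool.Agent.P.MP_1bf4cb_ag

/-- After `ev`, the `π i` are orthogonal idempotents whose sum is the unit. -/
def Orth {d m n N : ℕ} {A : Type} [CommRing A] (Q : ℕ) (u : Ix d m → Matrix (Fin n) (Fin n) A)
    (π : Fin (N + 1) → Polynomial ℚ) : Prop :=
  (∀ i j, ev Q u (π i * π j) = if i = j then ev Q u (π i) else 0) ∧
    ∑ i, ev Q u (π i) = ev Q u 1

theorem result (k : Type) [Field k] [Finite k] (p e : ℕ) [CharP k p] (he : 0 < e) (n m d : ℕ)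
    (E : Fin (d + 1) → Fin m → Fin m → Prop) (N : ℕ) (P : Fin (N + 1) → Polynomial ℚ)
    (hP : Pairwise fun i j => IsCoprime (P i) (P j)) :
    ∃ π : Fin (N + 1) → Polynomial ℚ, (∀ i j, P j ∣ π i - if i = j then 1 else 0) ∧
      Orth (Nat.card k) (univ k n (p ^ e) E) π :=
  main k p e he n m d E N P hP

end Pool.Agent.Results.MP_1bf4cb_ag.DeligneLusztig
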