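import Pool.Agent.K.MP_1bf4cb_ag.C3

namespace Pool.Agent.Results.MP_1bf4cb_ag.ReductiveDL

open Pool.Agent.P.MP_1bf4cb_ag.RG

theorem result (k : Type) [Field k] [Finite k] (n r : ℕ) (D : Bru k n r) (h : D.Ok) (N : ℕ)
    (P : Fin (N + 1) → Polynomial ℚ) (hP : Pairwise fun i j => IsCoprime (P i) (P j)) :
    ∃ π : Fin (N + 1) → Polynomial ℚ, (∀ i j, P j ∣ π i - if i = j then 1 else 0) ∧
      Ort (fun a => D.gph (Nat.card k ^ a)) π :=
  main k n r D h N P hP

open Matrix

variable {k : Type} [Field k] [Finite k] {n r m : ℕ}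

/-- Not used in `result`: the closed sets of the filtration increase. -/
def Mono (D : Bru k n r) : Prop :=
  ∀ (C : Type) [CommRing C] [Algebra k C] (j : ℕ) (g : Mx n C), Sol (D.Z j) g → Sol (D.Z (j + 1)) g

/-- Not used in `result`: block diagonal matrices. -/
def blocks {C : Type} [CommRing C] (x : Fin m → Mx n C) : Mx (n * m) C :=
  (blockDiagonal x).reindex finProdFinEquiv finProdFinEquiv

/-- The axioms hold for special linear and special unitary groups, with every standard parabolic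
subgroup. -/
theorem sl_ok (p : ℕ) [Fact p.Prime] [CharP k p] {e : ℕ} (he : 0 < e) (u : Bool) :
    ∃ D : Bru k (r + 1) r, Mono D ∧ (∀ β : Fin (r + 1) → ℕ, Monotone β → ∃ P,
      ({ D with Pa := P } : Bru k (r + 1) r).Ok ∧ ∀ (C : Type) [CommRing C] [Algebra k C]
        (g : Mx (r + 1) C), Sol P g ↔ g.det = 1 ∧ g.BlockTriangular β) ∧
      ∀ (C : Type) [CommRing C] [Algebra k C] (g : Mx (r + 1) C), (Sol D.G g ↔ g.det = 1) ∧
        (Sol D.B g ↔ g.det = 1 ∧ g.IsUpperTriangular) ∧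
        D.fr g = if u then (g.map (· ^ p ^ e)).adjugateᵀ.submatrix Fin.revPerm Fin.revPerm
          else g.map (· ^ p ^ e) :=
  sl_all p he u

/-- The axioms hold for the automorphism group of the split octonions (`g2`), with the stabiliser
of a line or of a plane (`eP`). -/
theorem g2_ok : ∃ D : Bru k 8 2, Mono D ∧ (∀ s, ({ D with Pa := eP k s } : Bru k 8 2).Ok) ∧
    D.G = (g2 k).G ∧ D.B = (g2 k).B ∧ D.F = (g2 k).F :=
  g2_all

/-- The axioms pass to chains `x 0, …, x m` with parabolic subgroups `P 0, …, P m`. -/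
theorem chain_ok {D : Bru k n r} (hM : Mono D) {P : Fin (m + 1) → Set (Pn k n)}
    (h : ∀ c, ({ D with Pa := P c } : Bru k n r).Ok) :
    ∃ E : Bru k (n * (m + 1)) (r * (m + 1)), E.Ok ∧ ∀ (C : Type) [CommRing C] [Algebra k C],
      (∀ g : Mx (n * (m + 1)) C, (Sol E.G g ↔ ∃ x, g = blocks x ∧ ∀ c, Sol D.G (x c)) ∧
        (Sol E.B g ↔ ∃ x, g = blocks x ∧ ∀ c, Sol D.B (x c)) ∧
        (Sol E.Pa g ↔ ∃ x, g = blocks x ∧ ∀ c, Sol (P c) (x c))) ∧
      ∀ x : Fin (m + 1) → Mx n C,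
        E.fr (blocks x) = blocks fun c => if c = Fin.last m then D.fr (x 0) else x (c + 1) :=
  chain_desc hM h

end Pool.Agent.Results.MP_1bf4cb_ag.ReductiveDL
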